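import Pool.Agent.H18.XZ.TA

/-!
# Row RPL of exz_modules: resampling the rows `(t, s t)`
-/

set_option autoImplicit false

namespace Pool.Agent.H88.XZ

open Finset Pool.Agent.H18.XZ

theorem rpl_self {ι J V : Type} [DecidableEq J] (s : ι → J) (ω : ι × J → V) (η : ι → V) (t : ι) :
    rpl s ω η (t, s t) = η t := by
  unfold rpl
  rw [if_pos rfl]

theorem rpl_ne {ι J V : Type} [DecidableEq J] (s : ι → J) (ω : ι × J → V) (η : ι → V) (t : ι)
    (j : J) (h : j ≠ s t) : rpl s ω η (t, j) = ω (t, j) := by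
  unfold rpl
  exact if_neg h

/-- the product of the weights of both copies is invariant -/
theorem wt_swap {ι J V : Type} [Fintype ι] [Fintype J] [DecidableEq J] (w : ι × J → V → ℝ)
    (s : ι → J) (ω : ι × J → V) (η : ι → V) :
    (∏ r, w r (rpl s ω η r)) * ∏ t, w (t, s t) (ω (t, s t)) =
      (∏ r, w r (ω r)) * ∏ t, w (t, s t) (η t) := by
  rw [Fintype.prod_prod_type, Fintype.prod_prod_type, ← Finset.prod_mul_distrib,
    ← Finset.prod_mul_distrib]
  refine Finset.prod_congr rfl fun t _ => ?_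
  rw [← Finset.mul_prod_erase univ (fun j => w (t, j) (rpl s ω η (t, j))) (mem_univ (s t)),
    ← Finset.mul_prod_erase univ (fun j => w (t, j) (ω (t, j))) (mem_univ (s t)), rpl_self]
  have h : ∏ j ∈ univ.erase (s t), w (t, j) (rpl s ω η (t, j)) =
      ∏ j ∈ univ.erase (s t), w (t, j) (ω (t, j)) :=
    Finset.prod_congr rfl fun j hj => by rw [rpl_ne s ω η t j (Finset.ne_of_mem_erase hj)]
  rw [h]
  ring

theorem pf_RPL : T_RPL := by
  intro ι J V _ _ _ _ _ _ w F s hw
  have h1 : ∑ η : ι → V, ∏ t, w (t, s t) (η t) = 1 := by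
    have h := Finset.prod_univ_sum (fun _ : ι => (univ : Finset V)) fun t x => w (t, s t) x
    rw [Fintype.piFinset_univ] at h
    rw [← h]
    exact Finset.prod_eq_one fun t _ => hw _
  let e : ((ι × J → V) × (ι → V)) ≃ ((ι × J → V) × (ι → V)) :=
    { toFun := fun p => (rpl s p.1 p.2, fun t => p.1 (t, s t))
      invFun := fun p => (rpl s p.1 p.2, fun t => p.1 (t, s t))
      left_inv := by
        rintro ⟨ω, η⟩
        refine Prod.ext ?_ ?_
        · funext ⟨t, j⟩
          show rpl s (rpl s ω η) (fun t => ω (t, s t)) (t, j) = ω (t, j)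
          by_cases h : j = s t
          · rw [h, rpl_self]
          · rw [rpl_ne _ _ _ _ _ h, rpl_ne _ _ _ _ _ h]
        · funext t
          exact rpl_self s ω η t
      right_inv := by
        rintro ⟨ω, η⟩
        refine Prod.ext ?_ ?_
        · funext ⟨t, j⟩
          show rpl s (rpl s ω η) (fun t => ω (t, s t)) (t, j) = ω (t, j)
          by_cases h : j = s t
          · rw [h, rpl_self]
          · rw [rpl_ne _ _ _ _ _ h, rpl_ne _ _ _ _ _ h]
        · funext t
          exact rpl_self s ω η t }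
  have h2 : ∑ p : (ι × J → V) × (ι → V),
      ((∏ r, w r (p.1 r)) * ∏ t, w (t, s t) (p.2 t)) * F p.1 =
      ∑ p : (ι × J → V) × (ι → V),
        ((∏ r, w r (p.1 r)) * ∏ t, w (t, s t) (p.2 t)) * F (rpl s p.1 p.2) := by
    rw [← Equiv.sum_comp e]
    refine Finset.sum_congr rfl fun p _ => ?_
    show ((∏ r, w r (rpl s p.1 p.2 r)) * ∏ t, w (t, s t) (p.1 (t, s t))) * F (rpl s p.1 p.2) = _
    rw [wt_swap]
  rw [Fintype.sum_prod_type, Fintype.sum_prod_type] at h2
  calc ∑ ω : ι × J → V, (∏ r, w r (ω r)) * F ω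
      = ∑ ω : ι × J → V, ∑ η : ι → V,
          ((∏ r, w r (ω r)) * ∏ t, w (t, s t) (η t)) * F ω := by
        refine Finset.sum_congr rfl fun ω _ => ?_
        rw [← Finset.sum_mul, ← Finset.mul_sum, h1, mul_one]
    _ = _ := h2
    _ = _ := by
        refine Finset.sum_congr rfl fun ω _ => ?_
        rw [Finset.mul_sum]
        exact Finset.sum_congr rfl fun η _ => by ring

end Pool.Agent.H88.XZ
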