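import Pool.Agent.H18.XZ.TC
import Pool.Agent.H66.AVH.REQ
import Pool.Agent.H10.AVH.SUM

/-!
# Row RXS of exz_modules: the expectation of the test function (after Pool/Agent/H88/XX/RXZ.lean)
-/

set_option autoImplicit false

namespace Pool.Agent.H88.XZ

open Finset Pool.Agent.H70.OQ Pool.Agent.H70.EH Pool.Agent.H70.EI Pool.Agent.H78.XQ
open Pool.Agent.H6.NB hiding sg
open Pool.Agent.H66.IP (Local ins sp dm IsZ scl mBp m0p)
open Pool.Agent.H66.IQ Pool.Agent.H66.AV
open Pool.Agent.H17.XW (Una)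
open Pool.Agent.H18.XX (Exa lx ax GoodZ Cz wz wy RhZ)
open Pool.Agent.H18.XZ
open Pool.Agent.H66.AVH (req_sq req_ln tests_mono within_mono)
open Pool.Agent.H10.AVH (sum_val01)

theorem s0_le {n k : ℕ} (A : (Fin n → Bool) → Prot k)
    (Q : ((Fin n → Bool) → Nn n k → Bool) → List Bool → Bool) (z : Wn n k) :
    |s0 A Q z| ≤ 2 ^ n / 2 := by
  have hcard : (Fintype.card (Fin n → Bool) : ℝ) = 2 ^ n := by simp
  unfold s0
  refine (Finset.abs_sum_le_sum_abs _ _).trans ?_
  have h1 : ∀ x ∈ (univ : Finset (Fin n → Bool)),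
      |Pool.Agent.H66.AV.sg (z x).1 * (v0 A Q z x - 1 / 2)| ≤ 1 / 2 := by
    intro x _
    have h2 : |Pool.Agent.H66.AV.sg (z x).1| = 1 := by
      unfold Pool.Agent.H66.AV.sg
      split_ifs <;> simp
    have h3 := sum_val01 (Q (tbl (zer z x))) (A x)
    rw [abs_mul, h2, one_mul, abs_le]
    unfold v0
    constructor <;> linarith [h3.1, h3.2]
  refine (Finset.sum_le_sum h1).trans (le_of_eq ?_)
  rw [Finset.sum_const, nsmul_eq_mul, Finset.card_univ, hcard]
  ring

theorem s1_le {n k : ℕ} (A C : (Fin n → Bool) → Prot k)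
    (Q : ((Fin n → Bool) → Nn n k → Bool) → List Bool → Bool) (z : Wn n k) :
    s1 A C Q z ≤ 2 ^ n := by
  have hcard : (Fintype.card (Fin n → Bool) : ℝ) = 2 ^ n := by simp
  unfold s1
  have h1 : ∀ x ∈ (univ : Finset (Fin n → Bool)),
      (if (z x).1 then v0 A Q z x * (1 - v1 C Q z x) else 0) ≤ 1 := by
    intro x _
    have h3 := sum_val01 (Q (tbl (zer z x))) (A x)
    have h4 := sum_val01 (Q (tbl z)) (C x)
    split_ifs
    · unfold v0 v1
      nlinarith [h3.1, h3.2, h4.1, h4.2]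
    · norm_num
  refine (Finset.sum_le_sum h1).trans (le_of_eq ?_)
  rw [Finset.sum_const, nsmul_eq_mul, Finset.card_univ, hcard]
  ring

open Classical in
theorem pf_RXS (hPFS : T_PFS) (hHYZ : Pool.Agent.H18.XX.T_HYZ) (hWYD : T_WYD) (hCNC : T_CNC)
    (hOVL : Pool.Agent.H66.AV.T_OVL) : T_RXS := by
  intro V k
  obtain ⟨n₂, h2⟩ := hPFS V k
  obtain ⟨n₃, h3⟩ := hCNC k
  refine ⟨n₂ + n₃ + 2000, fun n hn A C B hB hA hC hrel ε hε _ E O hO g => ?_⟩
  set s : ℕ := n / 100 with hs
  have hs20 : 20 ≤ s := by omega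
  have hA4 : ∀ x, (A x).Within (2 ^ (n / 4)) := fun x =>
    within_mono (Nat.pow_le_pow_right (by norm_num) (by omega)) (hA x)
  set one : Prot k := .test (.leaf true) with hone
  have hone4 : one.Within (2 ^ (n / 4)) := ⟨Nat.zero_le _, Nat.zero_le _, trivial⟩
  have hval1 : ∀ O, one.val O = 1 := fun O => by
    show (if (Exam.leaf true : Exam k).eval O = true then (1 : ℝ) else 0) = 1
    exact if_pos rfl
  set δ : ℝ := (1 / 2) ^ s ^ 3 with hδ
  have hδ0 : 0 ≤ δ := by positivity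
  clear_value δ
  -- a pair of protocols
  have hpair : ∀ (G₁ G₂ : Prot k), G₁.Within (2 ^ (n / 4)) → G₂.Within (2 ^ (n / 4)) →
      ∀ g₀ g₁ g₂ : List Bool → Bool,
      |∑ P, (wz V E O g₀ P - wy V E O s g₀ P) * (G₁.val (O P g₁) * G₂.val (O P g₂))| ≤ δ := by
    intro G₁ G₂ hG₁ hG₂ g₀ g₁ g₂
    have h := (hHYZ V E O hO g₀).2.2.2 s (fun P => G₁.val (O P g₁) * G₂.val (O P g₂))
      hs20 (fun p hps => h2 n (by omega) G₁ G₂ hG₁ hG₂ E O hO g₀ g₁ g₂ p hps)
    rw [← Finset.sum_sub_distrib, ← hδ] at h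
    simpa only [sub_mul] using h
  have hcard : (Fintype.card (Fin n → Bool) : ℝ) = 2 ^ n := by simp
  have h4n : (4 : ℝ) ^ n = (2 ^ n) ^ 2 := by
    rw [← pow_mul, mul_comm, pow_mul]; norm_num
  have h2n : (0 : ℝ) < 2 ^ n := by positivity
  have hz : ∀ z : Wn n k, ∑ P, wz V E O (ovl n k g (tbl z)) P *
      tst ε A C (fun T => O P (ovl n k g T)) z ≤
      ∑ P, wy V E O s (ovl n k g (tbl z)) P * tst ε A C (fun T => O P (ovl n k g T)) z +
        (36 / ε ^ 2 + 4 / ε) * δ := by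
    intro z
    set D : (∀ p : {a // a ∈ E}, Cz V p.1) → ℝ := fun P =>
      wz V E O (ovl n k g (tbl z)) P - wy V E O s (ovl n k g (tbl z)) P with hD
    have hs0 := req_sq D (fun x => Pool.Agent.H66.AV.sg (z x).1)
      (fun x P => (A x).val (O P (ovl n k g (tbl (zer z x))))) δ
      (fun x => by unfold Pool.Agent.H66.AV.sg; split_ifs <;> norm_num)
      (fun x x' => hpair (A x) (A x') (hA4 x) (hA4 x') _ _ _)
      (fun x => by
        have h := hpair (A x) one (hA4 x) hone4 (ovl n k g (tbl z))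
          (ovl n k g (tbl (zer z x))) g
        simpa only [hval1, mul_one] using h)
      (by
        have h := hpair one one hone4 hone4 (ovl n k g (tbl z)) g g
        simpa only [hval1, mul_one] using h)
    have hs1 := req_ln D (fun x => (z x).1)
      (fun x P => (A x).val (O P (ovl n k g (tbl (zer z x)))))
      (fun x P => (C x).val (O P (ovl n k g (tbl z)))) δ hδ0
      (fun x => hpair (A x) (C x) (hA4 x) (hC x) _ _ _)
      (fun x => by
        have h := hpair (A x) one (hA4 x) hone4 (ovl n k g (tbl z))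
          (ovl n k g (tbl (zer z x))) g
        simpa only [hval1, mul_one] using h)
    rw [hcard] at hs0 hs1
    have e1 : ∑ P, wz V E O (ovl n k g (tbl z)) P *
        tst ε A C (fun T => O P (ovl n k g T)) z =
        ∑ P, wy V E O s (ovl n k g (tbl z)) P * tst ε A C (fun T => O P (ovl n k g T)) z +
        (16 / (ε ^ 2 * 4 ^ n) * ∑ P, D P * (∑ x, Pool.Agent.H66.AV.sg (z x).1 *
          ((A x).val (O P (ovl n k g (tbl (zer z x)))) - 1 / 2)) ^ 2 +
        2 / (ε * 2 ^ n) * ∑ P, D P * (∑ x, if (z x).1 then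
          (A x).val (O P (ovl n k g (tbl (zer z x)))) *
          (1 - (C x).val (O P (ovl n k g (tbl z)))) else 0)) := by
      rw [Finset.mul_sum, Finset.mul_sum, ← Finset.sum_add_distrib, ← Finset.sum_add_distrib]
      refine Finset.sum_congr rfl fun P _ => ?_
      have e2 : tst ε A C (fun T => O P (ovl n k g T)) z =
          16 / (ε ^ 2 * 4 ^ n) * (∑ x, Pool.Agent.H66.AV.sg (z x).1 *
          ((A x).val (O P (ovl n k g (tbl (zer z x)))) - 1 / 2)) ^ 2 +
          2 / (ε * 2 ^ n) * (∑ x, if (z x).1 then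
          (A x).val (O P (ovl n k g (tbl (zer z x)))) *
          (1 - (C x).val (O P (ovl n k g (tbl z)))) else 0) := rfl
      rw [e2]
      simp only [hD]
      ring
    rw [e1]
    have hα : 0 ≤ 16 / (ε ^ 2 * 4 ^ n) := by positivity
    have hβ : 0 ≤ 2 / (ε * 2 ^ n) := by positivity
    have f1 := mul_le_mul_of_nonneg_left hs0 hα
    have f2 := mul_le_mul_of_nonneg_left hs1 hβ
    have f3 : 16 / (ε ^ 2 * 4 ^ n) * (((2 : ℝ) ^ n) ^ 2 * (9 / 4 * δ)) = 36 / ε ^ 2 * δ := by
      rw [h4n]; field_simp; ring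
    have f4 : 2 / (ε * 2 ^ n) * ((2 : ℝ) ^ n * (2 * δ)) = 4 / ε * δ := by
      field_simp; ring
    rw [f3] at f1
    rw [f4] at f2
    have f5 : (36 / ε ^ 2 + 4 / ε) * δ = 36 / ε ^ 2 * δ + 4 / ε * δ := by ring
    rw [f5]
    linarith
  -- the weights of the blocks of small scale
  obtain ⟨D, hD0, hD1, hD2⟩ := hWYD V E O s
  set τ : ℝ := 16 / ε ^ 2 * ((1 / 2) ^ (n / 36)) ^ 2 +
    2 / ε * (1 / B + 2 * (1 / 2) ^ (n / 36)) with hτ
  set Tm : ℝ := 4 / ε ^ 2 + 2 / ε with hTm
  have hτ0 : 0 ≤ τ := by positivity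
  have hTm0 : 0 ≤ Tm := by positivity
  set κ : ℝ := (1 / 2) ^ 2 ^ (n / 20) with hκ
  have hκ0 : 0 ≤ κ := by positivity
  set bad : (∀ p : {a // a ∈ E}, Cz V p.1) → Wn n k → Prop := fun P z =>
    ¬ (|s0 A (fun T => O P (ovl n k g T)) z| ≤ (1 / 2) ^ (n / 36) * 2 ^ n ∧
      s1 A C (fun T => O P (ovl n k g T)) z ≤ 2 ^ n * (1 / B + 2 * (1 / 2) ^ (n / 36))) with hbad
  have htst : ∀ P z, tst ε A C (fun T => O P (ovl n k g T)) z ≤
      τ + Tm * (if bad P z then 1 else 0) := by
    intro P z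
    have hα : 0 ≤ 16 / (ε ^ 2 * 4 ^ n) := by positivity
    have hβ : 0 ≤ 2 / (ε * 2 ^ n) := by positivity
    unfold tst
    by_cases hb : bad P z
    · rw [if_pos hb]
      have g1 : s0 A (fun T => O P (ovl n k g T)) z ^ 2 ≤ (2 ^ n / 2) ^ 2 := by
        rw [← sq_abs]
        exact pow_le_pow_left₀ (abs_nonneg _) (s0_le A _ z) 2
      have g2 := s1_le A C (fun T => O P (ovl n k g T)) z
      have f1 := mul_le_mul_of_nonneg_left g1 hα
      have f2 := mul_le_mul_of_nonneg_left g2 hβ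
      have f3 : 16 / (ε ^ 2 * 4 ^ n) * ((2 : ℝ) ^ n / 2) ^ 2 = 4 / ε ^ 2 := by
        rw [h4n]; field_simp; ring
      have f4 : 2 / (ε * 2 ^ n) * (2 : ℝ) ^ n = 2 / ε := by
        field_simp
      rw [f3] at f1
      rw [f4] at f2
      rw [hTm]
      linarith
    · rw [if_neg hb]
      have hb' : |s0 A (fun T => O P (ovl n k g T)) z| ≤ (1 / 2) ^ (n / 36) * 2 ^ n ∧
          s1 A C (fun T => O P (ovl n k g T)) z ≤ 2 ^ n * (1 / B + 2 * (1 / 2) ^ (n / 36)) :=
        not_not.1 hb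
      have g1 : s0 A (fun T => O P (ovl n k g T)) z ^ 2 ≤ ((1 / 2) ^ (n / 36) * 2 ^ n) ^ 2 := by
        rw [← sq_abs]
        exact pow_le_pow_left₀ (abs_nonneg _) hb'.1 2
      have f1 := mul_le_mul_of_nonneg_left g1 hα
      have f2 := mul_le_mul_of_nonneg_left hb'.2 hβ
      have f3 : 16 / (ε ^ 2 * 4 ^ n) * ((1 / 2) ^ (n / 36) * (2 : ℝ) ^ n) ^ 2 =
          16 / ε ^ 2 * ((1 / 2) ^ (n / 36)) ^ 2 := by
        rw [h4n, mul_pow]
        field_simp
      have f4 : 2 / (ε * 2 ^ n) * ((2 : ℝ) ^ n * (1 / B + 2 * (1 / 2) ^ (n / 36))) =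
          2 / ε * (1 / B + 2 * (1 / 2) ^ (n / 36)) := by
        have : ε ≠ 0 := hε.ne'
        have : (2 : ℝ) ^ n ≠ 0 := h2n.ne'
        generalize (1 / (B : ℝ) + 2 * (1 / 2) ^ (n / 36)) = y
        field_simp
      rw [f3] at f1
      rw [f4] at f2
      rw [hτ]
      linarith
  -- one z
  have hz2 : ∀ z : Wn n k, ∑ P, wy V E O s (ovl n k g (tbl z)) P *
      tst ε A C (fun T => O P (ovl n k g T)) z ≤
      5 / 4 * τ + Tm * ∑ P, D P * (if bad P z then 1 else 0) := by
    intro z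
    have hy := hHYZ V E O hO (ovl n k g (tbl z))
    calc ∑ P, wy V E O s (ovl n k g (tbl z)) P * tst ε A C (fun T => O P (ovl n k g T)) z
        ≤ ∑ P, (wy V E O s (ovl n k g (tbl z)) P * τ + Tm * (D P * (if bad P z then 1 else 0))) := by
          refine Finset.sum_le_sum fun P _ => ?_
          have a1 : 0 ≤ wy V E O s (ovl n k g (tbl z)) P := (hy.1 P).2 s
          have a2 : (0 : ℝ) ≤ Tm * (if bad P z then 1 else 0) := by
            split_ifs
            · simpa using hTm0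
            · simp
          calc wy V E O s (ovl n k g (tbl z)) P * tst ε A C (fun T => O P (ovl n k g T)) z
              ≤ wy V E O s (ovl n k g (tbl z)) P * (τ + Tm * (if bad P z then 1 else 0)) :=
                mul_le_mul_of_nonneg_left (htst P z) a1
            _ = wy V E O s (ovl n k g (tbl z)) P * τ +
                  wy V E O s (ovl n k g (tbl z)) P * (Tm * (if bad P z then 1 else 0)) := by ring
            _ ≤ wy V E O s (ovl n k g (tbl z)) P * τ + D P * (Tm * (if bad P z then 1 else 0)) :=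
                add_le_add le_rfl (mul_le_mul_of_nonneg_right (hD2 _ P) a2)
            _ = _ := by ring
      _ = (∑ P, wy V E O s (ovl n k g (tbl z)) P) * τ +
            Tm * ∑ P, D P * (if bad P z then 1 else 0) := by
          rw [Finset.sum_add_distrib, ← Finset.sum_mul, ← Finset.mul_sum]
      _ ≤ _ := add_le_add (mul_le_mul_of_nonneg_right (hy.2.2.1 s) hτ0) le_rfl
  -- the number of the bad z
  have hbc : ∀ P, ∑ z : Wn n k, (if bad P z then (1 : ℝ) else 0) ≤
      Fintype.card (Wn n k) * κ := by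
    intro P
    have hLit := ((hOVL n k g).2.2.2 (lx V) E O hO P).1
    have g1 := h3 n (by omega) A C B hB hA hrel _ hLit
    rw [← Finset.sum_filter, Finset.sum_const, nsmul_eq_mul, mul_one]
    exact g1
  have hfin : ∑ z : Wn n k, ∑ P, wy V E O s (ovl n k g (tbl z)) P *
      tst ε A C (fun T => O P (ovl n k g T)) z ≤
      Fintype.card (Wn n k) * (5 / 4 * τ + Tm * (2 ^ 2 ^ s * κ)) := by
    calc ∑ z : Wn n k, ∑ P, wy V E O s (ovl n k g (tbl z)) P *
      tst ε A C (fun T => O P (ovl n k g T)) z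
        ≤ ∑ z : Wn n k, (5 / 4 * τ + Tm * ∑ P, D P * (if bad P z then 1 else 0)) :=
          Finset.sum_le_sum fun z _ => hz2 z
      _ = Fintype.card (Wn n k) * (5 / 4 * τ) +
            Tm * ∑ P, D P * ∑ z : Wn n k, (if bad P z then 1 else 0) := by
          rw [Finset.sum_add_distrib, Finset.sum_const, Finset.card_univ, nsmul_eq_mul,
            ← Finset.mul_sum, Finset.sum_comm]
          congr 3
          funext P
          rw [Finset.mul_sum]
      _ ≤ Fintype.card (Wn n k) * (5 / 4 * τ) +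
            Tm * ∑ P, D P * (Fintype.card (Wn n k) * κ) := by
          refine add_le_add le_rfl (mul_le_mul_of_nonneg_left ?_ hTm0)
          exact Finset.sum_le_sum fun P _ => mul_le_mul_of_nonneg_left (hbc P) (hD0 P)
      _ = Fintype.card (Wn n k) * (5 / 4 * τ) +
            Tm * ((∑ P, D P) * (Fintype.card (Wn n k) * κ)) := by rw [← Finset.sum_mul]
      _ ≤ Fintype.card (Wn n k) * (5 / 4 * τ) +
            Tm * (2 ^ 2 ^ s * (Fintype.card (Wn n k) * κ)) := by
          refine add_le_add le_rfl (mul_le_mul_of_nonneg_left ?_ hTm0)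
          exact mul_le_mul_of_nonneg_right hD1 (by positivity)
      _ = _ := by ring
  refine (Finset.sum_le_sum fun z _ => hz z).trans ?_
  rw [Finset.sum_add_distrib, Finset.sum_const, Finset.card_univ, nsmul_eq_mul]
  calc _ ≤ Fintype.card (Wn n k) * (5 / 4 * τ + Tm * (2 ^ 2 ^ s * κ)) +
        Fintype.card (Wn n k) * ((36 / ε ^ 2 + 4 / ε) * δ) := add_le_add hfin le_rfl
    _ = _ := by ring

end Pool.Agent.H88.XZ
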